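import Pool.Agent.EDX.Stmts1

/-!
# Squad EDX, row CAC: case A, assembly of the first multiplier and of the chain
-/

set_option autoImplicit false

namespace Pool.Agent.EDX.H44

open Polynomial Finset Pool.Agent.EDG Pool.Agent.EDX Module

theorem cac (h1 : StrStmt) (h2 : ChnStmt) (h3 : DatStmt) : CacStmt := by
  intro n g hg q k k' b d J r₀ hq hb hd hk' hk hLQ h32 hJ
  obtain ⟨κ, hκ⟩ : ∃ κ : ℕ, κ = (2 * d) ^ (b + 1) := ⟨_, rfl⟩
  obtain ⟨N, hN⟩ : ∃ N : ℕ, N = n * g.natDegree := ⟨_, rfl⟩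
  have hκ0 : 0 < κ := by rw [hκ]; positivity
  rw [← hκ] at h32
  rw [← hN] at hLQ h32
  -- the size condition of STR
  have hr : r₀ ≤ 2 ^ k' := by
    refine le_trans ?_ hJ
    exact Nat.le_mul_of_pos_left _ (by positivity)
  have hsz : κ * N < q * 2 ^ k' := by
    have e1 : q * r₀ ≤ q * 2 ^ k' := Nat.mul_le_mul_left _ hr
    have e2 : 0 < q * 2 ^ k' := by positivity
    have e3 : 32 * (κ * N) ≤ 32 * d * κ * N := by
      have : 1 ≤ d := hd
      calc 32 * (κ * N) = 32 * 1 * κ * N := by ring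
        _ ≤ 32 * d * κ * N := by gcongr
    omega
  obtain ⟨ΦS, hΦS, hdS, hlS⟩ := h1 n g hg q k k' b d hq hb hk' hk (by rw [← hN]; exact hLQ)
    (by rw [← hN, ← hκ]; exact hsz)
  rw [← hN, ← hκ] at hdS
  rw [← hN] at hlS
  obtain ⟨T, hT1, hT2⟩ := h3 n g hg
  have hfr : finrank ℚ (Fin n × Fin g.natDegree → ℚ) = N := by
    rw [hN, Module.finrank_fintype_fun_eq_card, Fintype.card_prod, Fintype.card_fin,
      Fintype.card_fin]
  have hqR : (0 : ℝ) < q := by exact_mod_cast hq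
  have hdR : (0 : ℝ) < d := by exact_mod_cast hd
  have hκR : (0 : ℝ) < κ := by exact_mod_cast hκ0
  obtain ⟨c, hc⟩ : ∃ c : ℝ, c = q / (8 * d * κ) := ⟨_, rfl⟩
  have hc0 : 0 < c := by rw [hc]; positivity
  have hcr : 4 * (finrank ℚ (Fin n × Fin g.natDegree → ℚ) : ℝ) ≤ c * r₀ := by
    rw [hfr, hc, div_mul_eq_mul_div, le_div_iff₀ (by positivity)]
    have h32' : ((32 * d * κ * N : ℕ) : ℝ) ≤ ((q * r₀ : ℕ) : ℝ) := by exact_mod_cast h32
    push_cast at h32'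
    linarith
  obtain ⟨Φ, hΦ1, hΦ2, hΦ3⟩ := h2 ℚ KK (Fin n × Fin g.natDegree → ℚ) T c J r₀ hc0 hcr
  refine ⟨Φ, ?_, ?_, ?_⟩
  · intro i hi
    obtain ⟨e1, e2⟩ := hΦ1 i hi
    refine ⟨e1, ?_⟩
    rw [hfr, hc, div_mul_eq_mul_div, div_le_iff₀ (by positivity)] at e2
    rw [← hN, ← hκ]
    have e3 : ((q * (Φ i).natDegree : ℕ) : ℝ) ≤ ((8 * d * κ * N : ℕ) : ℝ) := by
      push_cast
      linarith
    exact_mod_cast e3
  · intro i hi
    have := hΦ2 i hi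
    rw [hT2] at this
    exact this
  · rw [← hN]
    have e1 := hΦ3 ΦS hΦS
    rw [hT1] at e1
    have e2 : finrank ℚ (LL (mu n g) ΦS (2 ^ k')) ≤ finrank ℚ (LL (mu n g) ΦS (2 ^ J * r₀)) :=
      Submodule.finrank_mono (LL_mono_r (mu n g) ΦS hJ)
    have e3 : (N : ℝ) ≤ 2 * d * (finrank ℚ (LL (mu n g) ΦS (2 ^ k')) : ℝ) := by
      exact_mod_cast hlS
    have e4 : (finrank ℚ (LL (mu n g) ΦS (2 ^ k')) : ℝ) ≤
        (finrank ℚ (LL (mu n g) ΦS (2 ^ J * r₀)) : ℝ) := by exact_mod_cast e2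
    have e5 : 8 * d * c * ΦS.natDegree ≤ N := by
      have e6 : ((q * ΦS.natDegree : ℕ) : ℝ) ≤ ((κ * N : ℕ) : ℝ) := by exact_mod_cast hdS
      push_cast at e6
      rw [hc]
      have e7 : 8 * (d : ℝ) * (q / (8 * d * κ)) * ΦS.natDegree = q * ΦS.natDegree / κ := by
        field_simp
      rw [e7, div_le_iff₀ hκR]
      linarith
    have e8 : (N : ℝ) ≤ 4 * d * (finrank ℚ (LL (mu n g) (Φ J) (2 ^ J * r₀)) : ℝ) := by
      have e9 : 2 * (d : ℝ) * (finrank ℚ (LL (mu n g) ΦS (2 ^ k')) : ℝ) ≤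
          2 * d * ((finrank ℚ (LL (mu n g) (Φ J) (2 ^ J * r₀)) : ℝ)
            + 2 * c * ΦS.natDegree) := by
        apply mul_le_mul_of_nonneg_left _ (by positivity)
        linarith
      have e10 : 2 * (d : ℝ) * ((finrank ℚ (LL (mu n g) (Φ J) (2 ^ J * r₀)) : ℝ)
            + 2 * c * ΦS.natDegree) = 2 * d * (finrank ℚ (LL (mu n g) (Φ J) (2 ^ J * r₀)) : ℝ)
            + (8 * d * c * ΦS.natDegree) / 2 := by ring
      linarith
    exact_mod_cast e8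

end Pool.Agent.EDX.H44
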