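import Pool.Agent.EDX.Stmts1

/-!
# Squad EDX, row KRK: a polynomial killed by a space of functionals of small rank
-/

set_option autoImplicit false

namespace Pool.Agent.EDX.H44

open Polynomial Finset Pool.Agent.EDG Pool.Agent.EDX Module

/-- the counting step, abstractly: `S` has rank `t₀` over `K` after `R`, and `q t₀` is at most the
dimension of `T` modulo `Z` over the small field -/
private theorem absA {k₀ K V W : Type} [Field k₀] [Field K] [Algebra k₀ K] [AddCommGroup V]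
    [Module K V] [Module k₀ V] [IsScalarTower k₀ K V] [AddCommGroup W] [Module K W] [Module k₀ W]
    [IsScalarTower k₀ K W] [FiniteDimensional K W] (R : V →ₗ[K] W) (Z T : Submodule k₀ V)
    (hZ : ∀ v ∈ Z, R v = 0) (hT : FiniteDimensional k₀ T) (S : Set V) (x : K) (q : ℕ)
    (hx : LinearIndependent k₀ (fun t : Fin q => x ^ (t : ℕ)))
    (hS : ∀ v ∈ S, ∀ t < q, x ^ t • v ∈ T) :
    ∃ (t₀ : ℕ) (v : Fin t₀ → V), (∀ i, v i ∈ S) ∧ q * t₀ ≤ finrank k₀ (T.map Z.mkQ) ∧
      ∀ w ∈ S, R w ∈ Submodule.span K (Set.range fun i => R (v i)) := by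
  classical
  obtain ⟨B, hBS, hBspan, hBind⟩ := exists_linearIndependent K (R '' S)
  have hBfin : Finite B := hBind.finite
  have : Fintype B := Fintype.ofFinite B
  have hch : ∀ x : B, ∃ v ∈ S, R v = x.1 := fun x => hBS x.2
  choose v hvS hvx using hch
  let e := (Fintype.equivFin B).symm
  refine ⟨Fintype.card B, fun i => v (e i), fun i => hvS _, ?_, ?_⟩
  · let fam : Fin q × B → V := fun p => x ^ (p.1 : ℕ) • v p.2
    have hfamT : ∀ p, fam p ∈ T := fun p => hS _ (hvS p.2) p.1 p.1.2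
    have hker : Z ≤ LinearMap.ker (R.restrictScalars k₀) := fun μ hμ => by
      rw [LinearMap.mem_ker]
      exact hZ μ hμ
    have hind1 : LinearIndependent k₀ (fun p : Fin q × B => x ^ (p.1 : ℕ) • (p.2 : W)) :=
      linearIndependent_smul hx hBind
    have hind2 : LinearIndependent k₀ (fun p : Fin q × B => Z.mkQ (fam p)) := by
      apply LinearIndependent.of_comp (Z.liftQ (R.restrictScalars k₀) hker)
      have h1 : (⇑(Z.liftQ (R.restrictScalars k₀) hker) ∘ fun p : Fin q × B => Z.mkQ (fam p)) =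
          (fun p : Fin q × B => x ^ (p.1 : ℕ) • (p.2 : W)) := by
        funext p
        show Z.liftQ (R.restrictScalars k₀) hker (Z.mkQ (fam p)) = _
        rw [Submodule.mkQ_apply, Submodule.liftQ_apply]
        show R (x ^ (p.1 : ℕ) • v p.2) = _
        rw [map_smul, hvx]
      rw [h1]
      exact hind1
    have hind3 : LinearIndependent k₀ (fun p : Fin q × B =>
        (⟨Z.mkQ (fam p), Submodule.mem_map_of_mem (hfamT p)⟩ : T.map Z.mkQ)) := by
      apply LinearIndependent.of_comp (T.map Z.mkQ).subtype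
      exact hind2
    have h1 := hind3.fintype_card_le_finrank
    rw [Fintype.card_prod, Fintype.card_fin] at h1
    exact h1
  · intro w hw
    have h1 : R w ∈ Submodule.span K B := by
      rw [hBspan]
      exact Submodule.subset_span ⟨w, hw, rfl⟩
    refine Submodule.span_mono ?_ h1
    intro b hb
    refine ⟨e.symm ⟨b, hb⟩, ?_⟩
    show R (v (e (e.symm ⟨b, hb⟩))) = b
    rw [Equiv.apply_symm_apply, hvx]

/-- fewer than `r` functionals have a common nonzero zero of small degree, abstractly -/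
private theorem absB {K : Type} [Field K] (r t₀ : ℕ) (v : Fin t₀ → (K[X] →ₗ[K] K)) (ht : t₀ < r)
    (S : Set (K[X] →ₗ[K] K))
    (hS : ∀ w ∈ S, w.comp (degreeLT K r).subtype ∈
      Submodule.span K (Set.range fun i => (v i).comp (degreeLT K r).subtype)) :
    ∃ Φ : K[X], Φ ≠ 0 ∧ Φ.natDegree ≤ t₀ ∧ ∀ w ∈ S, w Φ = 0 := by
  let ψ : degreeLT K (t₀ + 1) →ₗ[K] (Fin t₀ → K) :=
    LinearMap.pi fun i => (v i).comp (degreeLT K (t₀ + 1)).subtype
  have hfd : FiniteDimensional K (degreeLT K (t₀ + 1)) :=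
    Module.Finite.equiv (degreeLTEquiv K (t₀ + 1)).symm
  have hkψ : LinearMap.ker ψ ≠ ⊥ := by
    apply LinearMap.ker_ne_bot_of_finrank_lt
    rw [Module.finrank_fintype_fun_eq_card, (degreeLTEquiv K (t₀ + 1)).finrank_eq,
      Module.finrank_fintype_fun_eq_card, Fintype.card_fin, Fintype.card_fin]
    exact Nat.lt_succ_self _
  obtain ⟨Φ, hΦk, hΦ0⟩ := (Submodule.ne_bot_iff _).mp hkψ
  have hΦ0' : (Φ : K[X]) ≠ 0 := fun h => hΦ0 (Subtype.ext h)
  have hΦd : (Φ : K[X]).natDegree ≤ t₀ := by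
    have h1 := mem_degreeLT.mp Φ.2
    rw [degree_eq_natDegree hΦ0'] at h1
    have h2 : (Φ : K[X]).natDegree < t₀ + 1 := by exact_mod_cast h1
    omega
  have hΦr : (Φ : K[X]) ∈ degreeLT K r := by
    rw [mem_degreeLT, degree_eq_natDegree hΦ0']
    exact_mod_cast lt_of_le_of_lt hΦd ht
  have hvΦ : ∀ i, v i (Φ : K[X]) = 0 := fun i => congrFun (LinearMap.mem_ker.mp hΦk) i
  have hspan : ∀ w ∈ Submodule.span K (Set.range fun i => (v i).comp (degreeLT K r).subtype),
      w ⟨(Φ : K[X]), hΦr⟩ = 0 := by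
    intro w hw
    induction hw using Submodule.span_induction with
    | mem x hx =>
      obtain ⟨i, rfl⟩ := hx
      exact hvΦ i
    | zero => rfl
    | add x y _ _ hx hy => rw [LinearMap.add_apply, hx, hy, add_zero]
    | smul a x _ hx => rw [LinearMap.smul_apply, hx, smul_zero]
  exact ⟨Φ, hΦ0', hΦd, fun w hw => hspan _ (hS w hw)⟩

/-- the restriction of the functionals to the polynomials of degree `< r` -/
private noncomputable def Rs (K : Type) [Field K] (r : ℕ) : (K[X] →ₗ[K] K) →ₗ[K] (degreeLT K r →ₗ[K] K) where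
  toFun μ := μ.comp (degreeLT K r).subtype
  map_add' _ _ := rfl
  map_smul' _ _ := rfl

/-- both steps together, for functionals over a generic field -/
private theorem absC {k₀ K : Type} [Field k₀] [Field K] [Algebra k₀ K]
    (r : ℕ) (Z T : Submodule k₀ (K[X] →ₗ[K] K))
    (hZ : ∀ μ ∈ Z, ∀ f : K[X], f.degree < (r : WithBot ℕ) → μ f = 0)
    (hT : FiniteDimensional k₀ T) (S : Set (K[X] →ₗ[K] K)) (x : K) (q M : ℕ)
    (hx : LinearIndependent k₀ (fun t : Fin q => x ^ (t : ℕ)))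
    (hS : ∀ v ∈ S, ∀ t < q, x ^ t • v ∈ T) (hM : finrank k₀ (T.map Z.mkQ) ≤ M)
    (hMq : M < q * r) :
    ∃ Φ : K[X], Φ ≠ 0 ∧ q * Φ.natDegree ≤ M ∧ ∀ w ∈ S, w Φ = 0 := by
  have hfd : FiniteDimensional K (degreeLT K r) :=
    Module.Finite.equiv (degreeLTEquiv K r).symm
  obtain ⟨t₀, v, hv1, hv2, hv3⟩ := absA (Rs K r) Z T
    (fun μ hμ => LinearMap.ext fun f => hZ μ hμ f (mem_degreeLT.mp f.2)) hT S x q hx hS
  have hle : q * t₀ ≤ M := le_trans hv2 hM
  have ht : t₀ < r := lt_of_mul_lt_mul_left (lt_of_le_of_lt hle hMq) (Nat.zero_le q)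
  obtain ⟨Φ, h1, h2, h3⟩ := absB r t₀ v ht S hv3
  exact ⟨Φ, h1, le_trans (Nat.mul_le_mul_left q h2) hle, h3⟩

/-- the powers of `X` are independent over `ℚ` -/
private theorem indX (q : ℕ) : LinearIndependent ℚ (fun t : Fin q => (iK X : KK) ^ (t : ℕ)) := by
  let il : ℚ[X] →ₗ[ℚ] KK :=
    { toFun := iQ
      map_add' := map_add iQ
      map_smul' := fun a p => by
        rw [smul_eq_C_mul, map_mul, iQ_C, Algebra.smul_def]
        rfl }
  have h1 : LinearIndependent ℚ (fun t : Fin q => (X : ℚ[X]) ^ (t : ℕ)) := by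
    have h2 : LinearIndependent ℚ (fun t : ℕ => (X : ℚ[X]) ^ t) := by
      have h3 := (Polynomial.basisMonomials ℚ).linearIndependent
      have h4 : (fun t : ℕ => (X : ℚ[X]) ^ t) = (Polynomial.basisMonomials ℚ) := by
        funext t
        rw [Polynomial.coe_basisMonomials, Polynomial.X_pow_eq_monomial]
      rw [h4]
      exact h3
    exact h2.comp _ Fin.val_injective
  have h5 := h1.map' il (LinearMap.ker_eq_bot.mpr iQ_injective)
  have h6 : (il ∘ fun t : Fin q => (X : ℚ[X]) ^ (t : ℕ)) =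
      (fun t : Fin q => (iK X : KK) ^ (t : ℕ)) := by
    funext t
    show iQ (X ^ (t : ℕ)) = _
    rw [map_pow, iQ_X]
  rw [h6] at h5
  exact h5

private theorem mulF_C (a : KK) (w : KK[X]) (u : KK[X] →ₗ[KK] KK) :
    mulF (C a * w) u = a • mulF w u := by
  apply LinearMap.ext
  intro f
  rw [LinearMap.smul_apply, mulF_apply, mulF_apply, mul_assoc, ← smul_eq_C_mul, map_smul]

theorem krk : KrkStmt := by
  intro q L r M U T hq hT hUT hdr hM
  obtain ⟨Φ, hΦ0, hΦM, hΦS⟩ := absC r (ZZ r) T (fun μ hμ => hμ) hT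
    {v | ∃ u ∈ U, ∃ e < L, v = mulF (hK e) u} (iK X) q M (indX q) (by
      rintro v ⟨u, hu, e, he, rfl⟩ t ht
      rw [← mulF_C]
      exact hUT u hu t ht e he) hdr hM
  refine ⟨Φ, hΦ0, hΦM, ?_⟩
  intro u hu f hf
  have h1 := ext_hK (mulF Φ u) 0 L (fun e he => by
    rw [mulF_apply, LinearMap.zero_apply, mul_comm, ← mulF_apply]
    exact hΦS _ ⟨u, hu, e, he, rfl⟩) f hf
  rw [mulF_apply] at h1
  exact h1

end Pool.Agent.EDX.H44
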